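import Mathlib

/-!
# Poonen's strengthening of the union-closed sets conjecture for families with a self-dual
generating incidence relation
-/

namespace Pool.Agent.Results.MP_d55cb9_co.SelfDualFamilies

open Finset

/-- `A`, together with the empty set, consists of the unions of the sets `N(t) = {x : r t x}`. -/
def GeneratedBy {X : Type} [DecidableEq X] (r : X → X → Prop) (A : Finset (Finset X)) : Prop :=
  ∀ S : Finset X, S ∈ insert ∅ A ↔ ∃ T : Finset X, ∀ x, x ∈ S ↔ ∃ t ∈ T, r t x

/-- `A` separates the points of its universe. -/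
def Separating {X : Type} [DecidableEq X] (A : Finset (Finset X)) : Prop :=
  ∀ x ∈ A.sup id, ∀ y ∈ A.sup id, x ≠ y → ∃ S ∈ A, ¬ (x ∈ S ↔ y ∈ S)

section

variable {X : Type} [Fintype X] [DecidableEq X] (r : X → X → Prop) (π : Equiv.Perm X)
  (hr : ∀ x y, r x y ↔ r y (π x)) (A : Finset (Finset X))
  (hA : ∀ S : Finset X, S ∈ A ↔ ∃ T : Finset X, ∀ x, x ∈ S ↔ ∃ t ∈ T, r t x)

open Classical in
/-- the dual set -/
noncomputable def star (S : Finset X) : Finset X := univ.filter fun x => ∃ z, z ∉ S ∧ r z x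

include hA in
lemma star_mem (S : Finset X) : star r S ∈ A := by
  rw [hA]
  refine ⟨Sᶜ, fun x => ?_⟩
  simp [star]

include hr in
lemma mem_star (S : Finset X) (t : X) : π t ∈ star r S ↔ ¬ ∀ z, r t z → z ∈ S := by
  simp only [star, Finset.mem_filter, Finset.mem_univ, true_and]
  push Not
  constructor
  · rintro ⟨z, hz, h⟩
    exact ⟨z, (hr t z).mpr h, hz⟩
  · rintro ⟨z, h, hz⟩
    exact ⟨z, hz, (hr t z).mp h⟩

include hr hA in
lemma star_inj : Set.InjOn (star r) (A : Set (Finset X)) := by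
  intro S hS S' hS' h
  have key : ∀ S ∈ A, ∀ x, x ∈ S ↔ ∃ t, π t ∉ star r S ∧ r t x := by
    intro S hS x
    obtain ⟨T, hT⟩ := (hA S).mp hS
    constructor
    · intro hx
      obtain ⟨t, ht, htx⟩ := (hT x).mp hx
      refine ⟨t, ?_, htx⟩
      rw [mem_star r π hr, not_not]
      intro z hz
      exact (hT z).mpr ⟨t, ht, hz⟩
    · rintro ⟨t, ht, htx⟩
      rw [mem_star r π hr, not_not] at ht
      exact ht x htx
  ext x
  rw [key S hS, key S' hS', h]

open Classical in
include hr hA in
lemma card_sup (t : X) :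
    (A.filter fun S => ∀ z, r t z → z ∈ S).card + (A.filter fun S => π t ∈ S).card = A.card := by
  have himg : A.image (star r) = A := by
    apply Finset.eq_of_subset_of_card_le
    · intro S hS
      obtain ⟨S', -, rfl⟩ := Finset.mem_image.mp hS
      exact star_mem r A hA S'
    · rw [Finset.card_image_of_injOn (star_inj r π hr A hA)]
  have h1 : (A.filter fun S => ∀ z, r t z → z ∈ S).card = (A.filter fun S => π t ∉ S).card := by
    conv_rhs => rw [← himg, Finset.filter_image]
    rw [Finset.card_image_of_injOn]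
    · congr 1
      apply Finset.filter_congr
      intro S _
      rw [mem_star r π hr, not_not]
    · intro S hS S' hS' h
      exact star_inj r π hr A hA (Finset.mem_coe.mpr (Finset.mem_filter.mp (Finset.mem_coe.mp hS)).1)
        (Finset.mem_coe.mpr (Finset.mem_filter.mp (Finset.mem_coe.mp hS')).1) h
  rw [h1, add_comm]
  exact Finset.card_filter_add_card_filter_not _

include hr hA in
theorem main (hall : ∀ x, 2 * (A.filter fun S => x ∈ S).card ≤ A.card) :
    ∃ B : Finset (Finset X), (∀ S ∈ B, S.Nonempty) ∧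
      (∀ S ∈ B, ∀ T ∈ B, S ≠ T → Disjoint S T) ∧
      (∀ S : Finset X, S ∈ A ↔ ∃ P ⊆ B, S = P.biUnion id) ∧ A.card = 2 ^ B.card := by
  classical
  -- every member containing a point of `N(t)` contains `N(t)`
  have hblock : ∀ t z, r t z → ∀ S ∈ A, z ∈ S → ∀ w, r t w → w ∈ S := by
    intro t z htz S hS hzS
    have hsub : (A.filter fun S => ∀ z, r t z → z ∈ S) ⊆ A.filter fun S => z ∈ S := by
      intro S' hS'
      obtain ⟨h1, h2⟩ := Finset.mem_filter.mp hS'
      exact Finset.mem_filter.mpr ⟨h1, h2 z htz⟩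
    have h1 := card_sup r π hr A hA t
    have h2 := hall (π t)
    have h3 := hall z
    have heq := Finset.eq_of_subset_of_card_le hsub (by omega)
    have : S ∈ A.filter fun S => ∀ z, r t z → z ∈ S := by
      rw [heq]; exact Finset.mem_filter.mpr ⟨hS, hzS⟩
    exact (Finset.mem_filter.mp this).2
  let N : X → Finset X := fun t => univ.filter fun x => r t x
  have hNA : ∀ t, N t ∈ A := fun t => (hA _).mpr ⟨{t}, fun x => by simp [N]⟩
  have hmemN : ∀ t x, x ∈ N t ↔ r t x := fun t x => by simp [N]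
  have hNeq : ∀ t t' z, z ∈ N t → z ∈ N t' → N t = N t' := by
    intro t t' z h h'
    apply Finset.Subset.antisymm
    · intro w hw
      exact hblock t z ((hmemN _ _).mp h) (N t') (hNA t') h' w ((hmemN _ _).mp hw)
    · intro w hw
      exact hblock t' z ((hmemN _ _).mp h') (N t) (hNA t) h w ((hmemN _ _).mp hw)
  let B : Finset (Finset X) := (univ.image N).filter fun S => S.Nonempty
  have hB : ∀ S, S ∈ B ↔ (∃ t, N t = S) ∧ S.Nonempty := by
    intro S; simp [B]
  have hdisj : ∀ S ∈ B, ∀ T ∈ B, ∀ z, z ∈ S → z ∈ T → S = T := by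
    intro S hS T hT z hzS hzT
    obtain ⟨⟨t, rfl⟩, -⟩ := (hB S).mp hS
    obtain ⟨⟨t', rfl⟩, -⟩ := (hB T).mp hT
    exact hNeq t t' z hzS hzT
  have hchar : ∀ S : Finset X, S ∈ A ↔ ∃ P ⊆ B, S = P.biUnion id := by
    intro S
    constructor
    · intro hS
      refine ⟨B.filter fun T => T ⊆ S, Finset.filter_subset _ _, ?_⟩
      ext x
      simp only [Finset.mem_biUnion, Finset.mem_filter, id]
      constructor
      · intro hx
        obtain ⟨T, hT⟩ := (hA S).mp hS
        obtain ⟨t, ht, htx⟩ := (hT x).mp hx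
        refine ⟨N t, ⟨(hB _).mpr ⟨⟨t, rfl⟩, ⟨x, (hmemN _ _).mpr htx⟩⟩, ?_⟩, (hmemN _ _).mpr htx⟩
        intro w hw
        exact (hT w).mpr ⟨t, ht, (hmemN _ _).mp hw⟩
      · rintro ⟨T, ⟨-, hTS⟩, hxT⟩
        exact hTS hxT
    · rintro ⟨P, hP, rfl⟩
      rw [hA]
      refine ⟨univ.filter fun t => N t ∈ P, fun x => ?_⟩
      simp only [Finset.mem_biUnion, id, Finset.mem_filter, Finset.mem_univ, true_and]
      constructor
      · rintro ⟨S, hS, hxS⟩
        obtain ⟨⟨t, rfl⟩, -⟩ := (hB S).mp (hP hS)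
        exact ⟨t, hS, (hmemN _ _).mp hxS⟩
      · rintro ⟨t, ht, htx⟩
        exact ⟨N t, ht, (hmemN _ _).mpr htx⟩
  refine ⟨B, fun S hS => ((hB S).mp hS).2, ?_, hchar, ?_⟩
  · intro S hS T hT hne
    rw [Finset.disjoint_left]
    intro z hzS hzT
    exact hne (hdisj S hS T hT z hzS hzT)
  · have himg : A = B.powerset.image fun P => P.biUnion id := by
      ext S
      rw [hchar, Finset.mem_image]
      constructor
      · rintro ⟨P, hP, h⟩
        exact ⟨P, Finset.mem_powerset.mpr hP, h.symm⟩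
      · rintro ⟨P, hP, h⟩
        exact ⟨P, Finset.mem_powerset.mp hP, h.symm⟩
    rw [himg, Finset.card_image_of_injOn, Finset.card_powerset]
    have hhalf : ∀ P ⊆ B, ∀ Q ⊆ B, P.biUnion id = Q.biUnion id → P ⊆ Q := by
      intro P hP Q hQ h S hS
      obtain ⟨z, hz⟩ := ((hB S).mp (hP hS)).2
      have h1 : z ∈ P.biUnion id := Finset.mem_biUnion.mpr ⟨S, hS, hz⟩
      rw [h] at h1
      obtain ⟨T, hT, hzT⟩ := Finset.mem_biUnion.mp h1
      have h2 : S = T := hdisj S (hP hS) T (hQ hT) z hz hzT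
      rw [h2]; exact hT
    intro P hP Q hQ h
    have hP' := Finset.mem_powerset.mp (Finset.mem_coe.mp hP)
    have hQ' := Finset.mem_powerset.mp (Finset.mem_coe.mp hQ)
    exact Finset.Subset.antisymm (hhalf P hP' Q hQ' h) (hhalf Q hQ' P hP' h.symm)

end

lemma structureOf {X : Type} [Fintype X] [DecidableEq X] (r : X → X → Prop) (π : Equiv.Perm X)
      (hr : ∀ x y, r x y ↔ r y (π x)) (A : Finset (Finset X)) (hA : GeneratedBy r A)
      (hne : A.Nonempty)
      (hall : ∀ x, 2 * (A.filter fun S => x ∈ S).card ≤ A.card) :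
      ∃ B : Finset (Finset X), (∀ S ∈ B, S.Nonempty) ∧
        (∀ S ∈ B, ∀ T ∈ B, S ≠ T → Disjoint S T) ∧
        (∀ S : Finset X, S ∈ A ↔ ∃ P ⊆ B, S = P.biUnion id) ∧ A.card = 2 ^ B.card := by
  by_cases h0 : ∅ ∈ A
  · have hins : insert ∅ A = A := Finset.insert_eq_self.mpr h0
    refine main r π hr A (fun S => ?_) hall
    have := hA S
    rw [hins] at this
    exact this
  · exfalso
    have hcs := card_sup r π hr (insert ∅ A) hA
    have hcard : (insert ∅ A).card = A.card + 1 := Finset.card_insert_of_notMem h0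
    obtain ⟨S, hS⟩ := hne
    have hSne : S.Nonempty := by
      rw [Finset.nonempty_iff_ne_empty]
      rintro rfl
      exact h0 hS
    obtain ⟨x, hx⟩ := hSne
    obtain ⟨T, hT⟩ := (hA S).mp (Finset.mem_insert_of_mem hS)
    obtain ⟨t, -, htx⟩ := (hT x).mp hx
    classical
    have h1 := hcs t
    have h2 : ((insert ∅ A).filter fun S => ∀ z, r t z → z ∈ S).card ≤
        (A.filter fun S => x ∈ S).card := by
      apply Finset.card_le_card
      intro S' hS'
      obtain ⟨h3, h4⟩ := Finset.mem_filter.mp hS'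
      have h5 := h4 x htx
      rcases Finset.mem_insert.mp h3 with h6 | h6
      · rw [h6] at h5; simp at h5
      · exact Finset.mem_filter.mpr ⟨h6, h5⟩
    have h3 : ((insert ∅ A).filter fun S => π t ∈ S).card ≤ (A.filter fun S => π t ∈ S).card := by
      apply Finset.card_le_card
      intro S' hS'
      obtain ⟨h3, h5⟩ := Finset.mem_filter.mp hS'
      rcases Finset.mem_insert.mp h3 with h6 | h6
      · rw [h6] at h5; simp at h5
      · exact Finset.mem_filter.mpr ⟨h6, h5⟩
    have h4 := hall x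
    have h5 := hall (π t)
    rw [hcard] at h1
    omega

lemma powerset_of_separating {X : Type} [DecidableEq X] (A B : Finset (Finset X))
    (hdisj : ∀ S ∈ B, ∀ T ∈ B, S ≠ T → Disjoint S T)
    (hchar : ∀ S : Finset X, S ∈ A ↔ ∃ P ⊆ B, S = P.biUnion id) (hsep : Separating A) :
    A = (A.sup id).powerset := by
  have hsup : ∀ S ∈ A, ∀ x ∈ S, x ∈ A.sup id :=
    fun S hS x hx => Finset.mem_sup.mpr ⟨S, hS, hx⟩
  have hBA : ∀ b ∈ B, b ∈ A := fun b hb =>
    (hchar b).mpr ⟨{b}, Finset.singleton_subset_iff.mpr hb, by simp⟩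
  have hsing : ∀ x ∈ A.sup id, ({x} : Finset X) ∈ B := by
    intro x hx
    obtain ⟨S, hS, hxS⟩ := Finset.mem_sup.mp hx
    obtain ⟨P, hP, rfl⟩ := (hchar S).mp hS
    obtain ⟨b, hb, hxb⟩ := Finset.mem_biUnion.mp hxS
    have hbB := hP hb
    have hbx : b = {x} := by
      rw [Finset.eq_singleton_iff_unique_mem]
      refine ⟨hxb, ?_⟩
      intro y hy
      by_contra hne
      obtain ⟨T, hT, hn⟩ := hsep y (hsup b (hBA b hbB) y hy) x hx hne
      obtain ⟨Q, hQ, rfl⟩ := (hchar T).mp hT
      have key : ∀ z w, z ∈ b → w ∈ b → z ∈ Q.biUnion id → w ∈ Q.biUnion id := by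
        intro z w hz hw h
        obtain ⟨c, hc, hzc⟩ := Finset.mem_biUnion.mp h
        have : b = c := by
          by_contra hbc
          exact Finset.disjoint_left.mp (hdisj b hbB c (hQ hc) hbc) hz hzc
        rw [this] at hw
        exact Finset.mem_biUnion.mpr ⟨c, hc, hw⟩
      exact hn ⟨key y x hy hxb, key x y hxb hy⟩
    rw [← hbx]; exact hbB
  apply Finset.Subset.antisymm
  · intro S hS
    rw [Finset.mem_powerset]
    exact fun x hx => hsup S hS x hx
  · intro S hS
    rw [Finset.mem_powerset] at hS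
    refine (hchar S).mpr ⟨S.image fun x => {x}, ?_, ?_⟩
    · intro b hb
      obtain ⟨x, hx, rfl⟩ := Finset.mem_image.mp hb
      exact hsing x (hS hx)
    · ext x
      simp

theorem result :
    ∀ (X : Type) [Fintype X] [DecidableEq X] (r : X → X → Prop) (π : Equiv.Perm X),
      (∀ x y, r x y ↔ r y (π x)) → ∀ A : Finset (Finset X), GeneratedBy r A → A.Nonempty →
      (∃ x ∈ A.sup id, A.card < 2 * (A.filter fun S => x ∈ S).card) ∨
      (∃ B : Finset (Finset X), (∀ S ∈ B, S.Nonempty) ∧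
        (∀ S ∈ B, ∀ T ∈ B, S ≠ T → Disjoint S T) ∧
        (∀ S : Finset X, S ∈ A ↔ ∃ P ⊆ B, S = P.biUnion id) ∧ A.card = 2 ^ B.card ∧
        (Separating A → A = (A.sup id).powerset)) := by
  intro X _ _ r π hr A hA hne
  by_cases hcon : ∃ x ∈ A.sup id, A.card < 2 * (A.filter fun S => x ∈ S).card
  · exact Or.inl hcon
  · right
    push Not at hcon
    have hall : ∀ x, 2 * (A.filter fun S => x ∈ S).card ≤ A.card := by
      intro x
      by_cases hx : x ∈ A.sup id
      · exact hcon x hx
      · have : (A.filter fun S => x ∈ S) = ∅ := by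
          rw [Finset.filter_eq_empty_iff]
          intro S hS hxS
          exact hx (Finset.mem_sup.mpr ⟨S, hS, hxS⟩)
        rw [this]; simp
    obtain ⟨B, h1, h2, h3, h4⟩ := structureOf r π hr A hA hne hall
    exact ⟨B, h1, h2, h3, h4, powerset_of_separating A B h2 h3⟩

end Pool.Agent.Results.MP_d55cb9_co.SelfDualFamilies
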